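import Pool.Agent.TH745.MN.Tb

/-! Expansion in powers of the equation `y ^ 2 = R(x)`, general right side. -/

set_option autoImplicit false

namespace Pool.Agent.TH470.MN

open Pool.Agent.TH745.MN Pool.Agent.TH603.EL Pool.Agent.TH603.EL.Scal2 Pool.Agent.TH793.NG
  Pool.Agent.TH176.Nag Pool.Agent.TH603.Sur

section
variable {F : Type} [Field F] {R : Polynomial (HK F)}

theorem Gd_zero {M : ℕ} {e : ℤ} : Gd R M e (0 : PXY F) :=
  ⟨0, 0, Wt.zero, Wt.zero, by simp⟩

theorem Gd_add {M : ℕ} {e : ℤ} {p q : PXY F} (hp : Gd R M e p) (hq : Gd R M e q) :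
    Gd R M e (p + q) := by
  obtain ⟨A, B, h1, h2, rfl⟩ := hp
  obtain ⟨A', B', h1', h2', rfl⟩ := hq
  refine ⟨A + A', B + B', h1.add h1', h2.add h2', ?_⟩
  rw [Polynomial.add_comp, Polynomial.add_comp]; ring

theorem Gd_sum {M : ℕ} {e : ℤ} {κ : Type*} (t : Finset κ) (f : κ → PXY F)
    (h : ∀ k ∈ t, Gd R M e (f k)) : Gd R M e (∑ k ∈ t, f k) := by
  classical
  induction t using Finset.induction_on with
  | empty => simpa using Gd_zero
  | insert k t hk ih =>
    rw [Finset.sum_insert hk]
    exact Gd_add (h k (Finset.mem_insert_self _ _))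
      (ih fun j hj => h j (Finset.mem_insert_of_mem hj))

theorem Gd_mulh {M : ℕ} {e : ℤ} {p : PXY F} (hp : Gd R M (e - 2 * M) p) :
    Gd R M e (p * hR R) := by
  obtain ⟨A, B, h1, h2, rfl⟩ := hp
  refine ⟨A * Polynomial.X, B * Polynomial.X, h1.mulX, ?_, ?_⟩
  · apply Wt.mulX
    have : e - (M : ℤ) - 2 * M = e - 2 * M - M := by ring
    rw [this]; exact h2
  · rw [Polynomial.mul_comp, Polynomial.mul_comp, Polynomial.X_comp]; ring

theorem Gd_mono_pow_aux {M : ℕ} (hR' : R.natDegree ≤ 2 * M) (k : ℕ) :
    ∀ (e : ℤ) (p : Polynomial (HK F)), (p = 0 ∨ (p.natDegree : ℤ) + M * k ≤ e) →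
      Gd R M e (Polynomial.C p * Polynomial.X ^ k) := by
  induction k using Nat.strong_induction_on with
  | _ k ih =>
    intro e p hp
    rcases k with _ | k
    · refine ⟨Polynomial.C p, 0, Wt.C ?_, Wt.zero, ?_⟩
      · rcases hp with h | h
        · left; exact h
        · right; simpa using h
      · simp
    · rcases k with _ | k
      · refine ⟨0, Polynomial.C p, Wt.zero, Wt.C ?_, ?_⟩
        · rcases hp with h | h
          · left; exact h
          · right
            push_cast at h
            linarith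
        · simp
      · have e1 : Polynomial.C p * Polynomial.X ^ (k + 1 + 1) =
            (Polynomial.C p * Polynomial.X ^ k) * hR R +
              Polynomial.C (p * R) * Polynomial.X ^ k := by
          unfold hR
          rw [Polynomial.C_mul]
          ring
        rw [e1]
        refine Gd_add (Gd_mulh (ih k (by omega) _ p ?_)) (ih k (by omega) _ _ ?_)
        · rcases hp with h | h
          · left; exact h
          · right
            push_cast at h ⊢
            linarith
        · rcases hp with h | h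
          · left; rw [h, zero_mul]
          · right
            have h2 : ((p * R).natDegree : ℤ) ≤ p.natDegree + 2 * M := by
              have := (Polynomial.natDegree_mul_le (p := p) (q := R)).trans
                (Nat.add_le_add_left hR' _)
              exact_mod_cast this
            push_cast at h ⊢
            linarith

end

theorem Gd_mono_pow {F : Type} [Field F] {R : Polynomial (HK F)} {M : ℕ}
    (hR : R.natDegree ≤ 2 * M) (k : ℕ) (e : ℤ) (p : Polynomial (HK F))
    (hp : p = 0 ∨ (p.natDegree : ℤ) + M * k ≤ e) :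
    Gd R M e (Polynomial.C p * Polynomial.X ^ k) :=
  Gd_mono_pow_aux hR k e p hp

theorem Gd_pf {F : Type} [Field F] {R : Polynomial (HK F)} {M D : ℕ}
    (hR : R.natDegree ≤ 2 * M) {f : (ℤ × ℤ) →₀ HK F}
    (hf : ∀ m ∈ f.support, 0 ≤ m.1 ∧ 0 ≤ m.2 ∧ m.1 + M * m.2 ≤ D) : Gd R M D (pf f) := by
  unfold pf
  apply Gd_sum
  intro m hm
  obtain ⟨h1, h2, h3⟩ := hf m hm
  apply Gd_mono_pow hR
  right
  have h4 := Polynomial.natDegree_C_mul_X_pow_le (f m) m.1.toNat
  have h5 : (m.1.toNat : ℤ) = m.1 := Int.toNat_of_nonneg h1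
  have h6 : (m.2.toNat : ℤ) = m.2 := Int.toNat_of_nonneg h2
  rw [h6]
  have h7 : ((Polynomial.C (f m) * Polynomial.X ^ m.1.toNat : Polynomial (HK F)).natDegree : ℤ) ≤
      m.1 := by
    rw [← h5]; exact_mod_cast h4
  linarith

end Pool.Agent.TH470.MN
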